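import Pool.Agent.N549.HG.Stm2

/-!
# HG/CELLS (project HG of helper549): the torus is the union of `m` sets of volume at most `1 / m`
-/

set_option autoImplicit false

namespace Pool.Agent.N82.HG

open MeasureTheory Set Pool.Agent.N549.HG

/-- the representative in `(0, 1]` -/
noncomputable def E (y : UnitAddCircle) : ℝ :=
  ((AddCircle.measurableEquivIoc (1 : ℝ) 0 y : Ioc (0 : ℝ) (0 + 1)) : ℝ)

lemma E_meas : Measurable E :=
  measurable_subtype_coe.comp (AddCircle.measurableEquivIoc (1 : ℝ) 0).measurable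

lemma E_mem (y : UnitAddCircle) : 0 < E y ∧ E y ≤ 1 := by
  have h := (AddCircle.measurableEquivIoc (1 : ℝ) 0 y).2
  exact ⟨h.1, h.2.trans (by norm_num)⟩

lemma E_mk (t : ℝ) (ht : t ∈ Ioc (0 : ℝ) (0 + 1)) : E (t : UnitAddCircle) = t := by
  have h : AddCircle.measurableEquivIoc (1 : ℝ) 0 (t : UnitAddCircle) = ⟨t, ht⟩ := by
    apply (AddCircle.measurableEquivIoc (1 : ℝ) 0).symm.injective
    rw [MeasurableEquiv.symm_apply_apply]
    rfl
  rw [E, h]

lemma arc_le (a b : ℝ) :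
    (AddCircle.haarAddCircle : Measure UnitAddCircle) (E ⁻¹' (Ioc a b)) ≤
      ENNReal.ofReal (b - a) := by
  have h0 : (volume : Measure UnitAddCircle) = AddCircle.haarAddCircle := by
    rw [AddCircle.volume_eq_smul_haarAddCircle]
    simp
  rw [← h0]
  have hp := AddCircle.measurePreserving_mk (1 : ℝ) 0
  have hm : MeasurableSet (E ⁻¹' (Ioc a b)) := E_meas measurableSet_Ioc
  rw [← hp.measure_preimage hm.nullMeasurableSet, Measure.restrict_apply (hp.measurable hm)]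
  calc volume _ ≤ volume (Ioc a b) := by
        apply measure_mono
        rintro t ⟨h1, h2⟩
        have h3 : E (t : UnitAddCircle) ∈ Ioc a b := h1
        rwa [E_mk t h2] at h3
    _ = ENNReal.ofReal (b - a) := Real.volume_Ioc

theorem cells : S_CELLS := by
  intro n hn m hm
  have hm0 : (0 : ℝ) < m := by exact_mod_cast hm
  let i0 : Fin n := ⟨0, hn⟩
  refine ⟨fun i => {x | x i0 ∈ E ⁻¹' (Ioc ((i : ℝ) / m) (((i : ℝ) + 1) / m))}, ?_, ?_, ?_⟩
  · intro i
    exact (measurable_pi_apply i0) (E_meas measurableSet_Ioc)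
  · rw [eq_univ_iff_forall]
    intro x
    rw [mem_iUnion]
    obtain ⟨h1, h2⟩ := E_mem (x i0)
    have h3 : 0 < E (x i0) * m := mul_pos h1 hm0
    have h4 : 0 < ⌈E (x i0) * m⌉₊ := Nat.ceil_pos.2 h3
    have h5 : ⌈E (x i0) * m⌉₊ ≤ m := by
      apply Nat.ceil_le.2
      nlinarith
    refine ⟨⟨⌈E (x i0) * m⌉₊ - 1, by omega⟩, ?_⟩
    have h6 : ((⌈E (x i0) * m⌉₊ - 1 : ℕ) : ℝ) = (⌈E (x i0) * m⌉₊ : ℝ) - 1 := by
      rw [Nat.cast_sub h4, Nat.cast_one]
    have h7 := Nat.ceil_lt_add_one h3.le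
    have h8 := Nat.le_ceil (E (x i0) * m)
    change E (x i0) ∈ Ioc (((⌈E (x i0) * m⌉₊ - 1 : ℕ) : ℝ) / m)
      ((((⌈E (x i0) * m⌉₊ - 1 : ℕ) : ℝ) + 1) / m)
    rw [h6]
    constructor
    · rw [div_lt_iff₀ hm0]; linarith
    · rw [le_div_iff₀ hm0]; linarith
  · intro i
    have hpr := measurePreserving_eval (fun _ : Fin n =>
      (AddCircle.haarAddCircle : Measure UnitAddCircle)) i0
    have hms : MeasurableSet (E ⁻¹' (Ioc ((i : ℝ) / m) (((i : ℝ) + 1) / m))) :=
      E_meas measurableSet_Ioc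
    have h1 := hpr.measure_preimage hms.nullMeasurableSet
    have h2 := arc_le ((i : ℝ) / m) (((i : ℝ) + 1) / m)
    have h3 : ((i : ℝ) + 1) / m - (i : ℝ) / m = 1 / m := by
      rw [← sub_div]; ring
    rw [h3] at h2
    rw [Measure.real]
    refine ENNReal.toReal_le_of_le_ofReal (by positivity) ?_
    refine le_trans (le_of_eq ?_) h2
    exact h1

end Pool.Agent.N82.HG
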